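import Mathlib

/-!
# Project HAP (MP_70146a_co), part B, section Ent: entropy inequalities on one block

A block has the finite set `s` of children, `n i ≥ 0` is the number of elements in the child `i`,
`∑ n i` the number of elements of the block.  `ent s n = ∑ n i log (n i |s| / ∑ n)` is (number of
elements) times the relative entropy with respect to the uniform distribution on the children.
-/

namespace Pool.Agent.Lib.HAP.E

open Finset

noncomputable section

/-- (Number of elements) times the relative entropy of the distribution of the elements over the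
children with respect to the uniform distribution. -/
def ent {ι : Type*} (s : Finset ι) (n : ι → ℝ) : ℝ :=
  ∑ i ∈ s, n i * Real.log (n i * (s.card : ℝ) / ∑ j ∈ s, n j)

/-- Uniform average. -/
def avg {ι : Type*} (s : Finset ι) (f : ι → ℝ) : ℝ := (∑ i ∈ s, f i) / (s.card : ℝ)

end

/-- Gibbs / Donsker-Varadhan, for weights `w ≥ 0` which are positive where `n` is not zero. -/
theorem gibbsW {ι : Type*} (s : Finset ι) (hs : s.Nonempty) (n w : ι → ℝ)
    (hn : ∀ i ∈ s, 0 ≤ n i) (hw : ∀ i ∈ s, 0 ≤ w i) (hnw : ∀ i ∈ s, n i ≠ 0 → 0 < w i) :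
    ∑ i ∈ s, n i * Real.log (w i) ≤ ent s n + (∑ i ∈ s, n i) * Real.log (avg s w) := by
  set S := ∑ i ∈ s, n i with hS
  have hc : (0 : ℝ) < (s.card : ℝ) := by exact_mod_cast hs.card_pos
  have hS0 : 0 ≤ S := Finset.sum_nonneg hn
  set Z := avg s w with hZ
  rcases eq_or_lt_of_le hS0 with h0 | hpos
  · have h1 : ∀ i ∈ s, n i = 0 := by
      intro i hi
      exact (Finset.sum_eq_zero_iff_of_nonneg hn).mp h0.symm i hi
    have h2 : ∑ i ∈ s, n i * Real.log (w i) = 0 :=
      Finset.sum_eq_zero fun i hi => by rw [h1 i hi, zero_mul]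
    have h3 : ent s n = 0 := Finset.sum_eq_zero fun i hi => by rw [h1 i hi, zero_mul]
    rw [h2, h3, ← h0]; simp
  · have hwpos : 0 < ∑ i ∈ s, w i := by
      obtain ⟨i, hi, hni⟩ := Finset.exists_ne_zero_of_sum_ne_zero hpos.ne'
      exact Finset.sum_pos' hw ⟨i, hi, hnw i hi hni⟩
    have hZ0 : 0 < Z := by
      rw [hZ]; unfold avg
      exact div_pos hwpos hc
    have key : ∀ i ∈ s, n i * Real.log (w i) - n i * Real.log (n i * (s.card : ℝ) / S)
        - n i * Real.log Z ≤ S * w i / ((s.card : ℝ) * Z) - n i := by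
      intro i hi
      rcases eq_or_lt_of_le (hn i hi) with h | h
      · rw [← h]
        have : 0 ≤ S * w i / ((s.card : ℝ) * Z) :=
          div_nonneg (mul_nonneg hS0 (hw i hi)) (mul_pos hc hZ0).le
        simpa using this
      · have hwi := hnw i hi h.ne'
        have hS' : S ≠ 0 := hpos.ne'
        have hn' : n i ≠ 0 := h.ne'
        have hc' : (s.card : ℝ) ≠ 0 := hc.ne'
        have hZ' : Z ≠ 0 := hZ0.ne'
        have e1 : Real.log (w i) - Real.log (n i * (s.card : ℝ) / S) - Real.log Z
            = Real.log (S * w i / (n i * (s.card : ℝ) * Z)) := by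
          have a1 : Real.log (n i * (s.card : ℝ) / S)
              = Real.log (n i) + Real.log (s.card : ℝ) - Real.log S := by
            rw [Real.log_div (mul_ne_zero hn' hc') hS', Real.log_mul hn' hc']
          have a2 : Real.log (S * w i / (n i * (s.card : ℝ) * Z))
              = Real.log S + Real.log (w i)
                - (Real.log (n i) + Real.log (s.card : ℝ) + Real.log Z) := by
            rw [Real.log_div (mul_ne_zero hS' hwi.ne')
              (mul_ne_zero (mul_ne_zero hn' hc') hZ'), Real.log_mul hS' hwi.ne',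
              Real.log_mul (mul_ne_zero hn' hc') hZ', Real.log_mul hn' hc']
          rw [a1, a2]
          ring
        have e2 := Real.log_le_sub_one_of_pos
          (show 0 < S * w i / (n i * (s.card : ℝ) * Z) by positivity)
        calc n i * Real.log (w i) - n i * Real.log (n i * (s.card : ℝ) / S)
              - n i * Real.log Z
            = n i * (Real.log (w i) - Real.log (n i * (s.card : ℝ) / S) - Real.log Z) := by ring
          _ ≤ n i * (S * w i / (n i * (s.card : ℝ) * Z) - 1) := by
              rw [e1]; exact mul_le_mul_of_nonneg_left e2 h.le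
          _ = S * w i / ((s.card : ℝ) * Z) - n i := by
              field_simp
    have h1 := Finset.sum_le_sum key
    rw [Finset.sum_sub_distrib, Finset.sum_sub_distrib, Finset.sum_sub_distrib,
      ← Finset.sum_mul, ← hS, ← Finset.sum_div, ← Finset.mul_sum] at h1
    have h2 : S * (∑ i ∈ s, w i) / ((s.card : ℝ) * Z) = S := by
      have : (s.card : ℝ) * Z = ∑ i ∈ s, w i := by
        rw [hZ]; unfold avg; field_simp
      rw [this]
      field_simp
    rw [h2] at h1
    unfold ent
    linarith

/-- Gibbs / Donsker-Varadhan. -/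
theorem gibbs {ι : Type*} (s : Finset ι) (hs : s.Nonempty) (n v : ι → ℝ)
    (hn : ∀ i ∈ s, 0 ≤ n i) :
    ∑ i ∈ s, n i * v i ≤ ent s n + (∑ i ∈ s, n i) * Real.log (avg s fun i => Real.exp (v i)) := by
  have h := gibbsW s hs n (fun i => Real.exp (v i)) hn (fun i _ => (Real.exp_pos _).le)
    (fun i _ _ => Real.exp_pos _)
  simpa only [Real.log_exp] using h

/-- The relative entropy is nonnegative. -/
theorem ent_nonneg {ι : Type*} (s : Finset ι) (n : ι → ℝ) (hn : ∀ i ∈ s, 0 ≤ n i) :
    0 ≤ ent s n := by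
  rcases s.eq_empty_or_nonempty with rfl | hs
  · simp [ent]
  · have h := gibbs s hs n (fun _ => 0) hn
    have hc : (0 : ℝ) < (s.card : ℝ) := by exact_mod_cast hs.card_pos
    have h1 : avg s (fun _ => Real.exp 0) = 1 := by
      unfold avg
      rw [Real.exp_zero, Finset.sum_const, nsmul_eq_mul, mul_one, div_self hc.ne']
    rw [h1] at h
    simpa using h

private lemma gibbs_exp_le {x : ℝ} (hx : |x| ≤ 1) : Real.exp x ≤ 1 + x + x ^ 2 := by
  have h := Real.abs_exp_sub_one_sub_id_le hx
  have := (abs_le.mp h).2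
  linarith

/-- Pinsker in linearised form: for `|f| ≤ V` and `0 < lam ≤ 1`,
`∑ n f ≤ N avg f + (V / lam) ent + lam V N`. -/
theorem pinsker {ι : Type*} (s : Finset ι) (hs : s.Nonempty) (n f : ι → ℝ)
    (hn : ∀ i ∈ s, 0 ≤ n i) {V lam : ℝ} (hV : 0 < V) (hf : ∀ i ∈ s, |f i| ≤ V)
    (hl0 : 0 < lam) (hl1 : lam ≤ 1) :
    ∑ i ∈ s, n i * f i ≤ (∑ i ∈ s, n i) * avg s f + V / lam * ent s n
      + lam * V * ∑ i ∈ s, n i := by
  have hc : (0 : ℝ) < (s.card : ℝ) := by exact_mod_cast hs.card_pos
  set S := ∑ i ∈ s, n i with hS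
  have hS0 : 0 ≤ S := Finset.sum_nonneg hn
  have h1 := gibbs s hs n (fun i => lam / V * f i) hn
  have h2 : Real.log (avg s fun i => Real.exp (lam / V * f i)) ≤ lam / V * avg s f + lam ^ 2 := by
    have hpos : 0 < avg s fun i => Real.exp (lam / V * f i) := by
      unfold avg
      exact div_pos (Finset.sum_pos (fun i _ => Real.exp_pos _) hs) hc
    refine (Real.log_le_sub_one_of_pos hpos).trans ?_
    have h3 : ∀ i ∈ s, Real.exp (lam / V * f i) ≤ 1 + lam / V * f i + lam ^ 2 := by
      intro i hi
      have h4 : |lam / V * f i| ≤ lam := by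
        rw [abs_mul, abs_of_pos (div_pos hl0 hV)]
        calc lam / V * |f i| ≤ lam / V * V :=
              mul_le_mul_of_nonneg_left (hf i hi) (div_pos hl0 hV).le
          _ = lam := by field_simp
      have h5 := gibbs_exp_le (h4.trans hl1)
      have h6 : (lam / V * f i) ^ 2 ≤ lam ^ 2 := by
        rw [← sq_abs (lam / V * f i)]
        exact pow_le_pow_left₀ (abs_nonneg _) h4 2
      linarith
    have h4 := Finset.sum_le_sum h3
    rw [Finset.sum_add_distrib, Finset.sum_add_distrib, Finset.sum_const, Finset.sum_const,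
      ← Finset.mul_sum, nsmul_eq_mul, nsmul_eq_mul] at h4
    unfold avg
    rw [sub_le_iff_le_add, div_le_iff₀ hc]
    calc ∑ i ∈ s, Real.exp (lam / V * f i)
        ≤ (s.card : ℝ) * 1 + lam / V * ∑ i ∈ s, f i + (s.card : ℝ) * lam ^ 2 := h4
      _ = (lam / V * ((∑ i ∈ s, f i) / (s.card : ℝ)) + lam ^ 2 + 1) * (s.card : ℝ) := by
          field_simp; ring
  have h3 : ∑ i ∈ s, n i * (lam / V * f i) = lam / V * ∑ i ∈ s, n i * f i := by
    rw [Finset.mul_sum]; exact Finset.sum_congr rfl fun i _ => by ring
  rw [h3] at h1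
  have h4 : lam / V * ∑ i ∈ s, n i * f i ≤ ent s n + S * (lam / V * avg s f + lam ^ 2) :=
    h1.trans (by gcongr)
  have hlV : 0 < lam / V := div_pos hl0 hV
  have h5 : ∑ i ∈ s, n i * f i ≤ (ent s n + S * (lam / V * avg s f + lam ^ 2)) / (lam / V) := by
    rw [le_div_iff₀ hlV]; linarith
  refine h5.trans (le_of_eq ?_)
  field_simp
  ring

end Pool.Agent.Lib.HAP.E
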