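import Mathlib
import Pool.Agent.Lib.HAP.E.Gibbs

/-!
# Project HAP, part B, section Ent: the energy of the slopes of one block

`y i = θ_i / θ ≥ 0` are the relative slopes of the children, with average one, and
`egy s y = 1 - average of √(y i) ≥ 0` is the energy.
-/

namespace Pool.Agent.Lib.HAP.E

open Finset

noncomputable section

/-- The energy of the relative slopes. -/
def egy {ι : Type*} (s : Finset ι) (y : ι → ℝ) : ℝ := 1 - avg s fun i => Real.sqrt (y i)

/-- The function for the labels. -/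
def dd (x : ℝ) : ℝ := min ((Real.sqrt x - 1) ^ 2) (1 / 50)

end

private lemma energy_avg_mono {ι : Type*} {s : Finset ι} {f g : ι → ℝ}
    (h : ∀ i ∈ s, f i ≤ g i) : avg s f ≤ avg s g := by
  unfold avg
  exact div_le_div_of_nonneg_right (Finset.sum_le_sum h) (Nat.cast_nonneg _)

/-- `average of (√y - 1)^2 = 2 egy`. -/
theorem avg_sq {ι : Type*} (s : Finset ι) (hs : s.Nonempty) (y : ι → ℝ)
    (hy : ∀ i ∈ s, 0 ≤ y i) (h1 : avg s y = 1) :
    avg s (fun i => (Real.sqrt (y i) - 1) ^ 2) = 2 * egy s y := by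
  have hc : (0 : ℝ) < (s.card : ℝ) := by exact_mod_cast hs.card_pos
  have h2 : ∑ i ∈ s, (Real.sqrt (y i) - 1) ^ 2
      = ∑ i ∈ s, y i - 2 * ∑ i ∈ s, Real.sqrt (y i) + (s.card : ℝ) := by
    rw [Finset.mul_sum, ← Finset.sum_sub_distrib]
    have : (s.card : ℝ) = ∑ i ∈ s, (1 : ℝ) := by simp
    rw [this, ← Finset.sum_add_distrib]
    apply Finset.sum_congr rfl
    intro i hi
    have := Real.sq_sqrt (hy i hi)
    ring_nf
    rw [this]
  have h3 : ∑ i ∈ s, y i = (s.card : ℝ) := by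
    unfold avg at h1
    field_simp at h1
    exact h1
  unfold egy avg
  rw [h2, h3]
  field_simp
  ring

theorem egy_nonneg {ι : Type*} (s : Finset ι) (hs : s.Nonempty) (y : ι → ℝ)
    (hy : ∀ i ∈ s, 0 ≤ y i) (h1 : avg s y = 1) : 0 ≤ egy s y := by
  have h2 := avg_sq s hs y hy h1
  have h3 : 0 ≤ avg s (fun i => (Real.sqrt (y i) - 1) ^ 2) := by
    unfold avg
    exact div_nonneg (Finset.sum_nonneg fun i _ => sq_nonneg _) (Nat.cast_nonneg _)
  linarith

/-- Step inequality for the slopes: `∑ n (1/2) log y ≤ ent - N egy`. -/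
theorem step_slope {ι : Type*} (s : Finset ι) (hs : s.Nonempty) (n y : ι → ℝ)
    (hn : ∀ i ∈ s, 0 ≤ n i) (hy : ∀ i ∈ s, 0 ≤ y i) (hny : ∀ i ∈ s, n i ≠ 0 → 0 < y i)
    (h1 : avg s y = 1) :
    ∑ i ∈ s, n i * (1 / 2 * Real.log (y i)) ≤ ent s n - (∑ i ∈ s, n i) * egy s y := by
  have hc : (0 : ℝ) < (s.card : ℝ) := by exact_mod_cast hs.card_pos
  have hS0 : 0 ≤ ∑ i ∈ s, n i := Finset.sum_nonneg hn
  have h := gibbsW s hs n (fun i => Real.sqrt (y i)) hn (fun i _ => Real.sqrt_nonneg _)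
    (fun i hi h => Real.sqrt_pos.mpr (hny i hi h))
  have h2 : ∑ i ∈ s, n i * Real.log (Real.sqrt (y i)) = ∑ i ∈ s, n i * (1 / 2 * Real.log (y i)) := by
    apply Finset.sum_congr rfl
    intro i hi
    rw [Real.log_sqrt (hy i hi)]
    ring
  rw [h2] at h
  have hpos : 0 < avg s fun i => Real.sqrt (y i) := by
    unfold avg
    apply div_pos _ hc
    have h3 : 0 < ∑ i ∈ s, y i := by
      unfold avg at h1
      have : ∑ i ∈ s, y i = (s.card : ℝ) := by field_simp at h1; exact h1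
      rw [this]; exact hc
    obtain ⟨i, hi, hyi⟩ := Finset.exists_ne_zero_of_sum_ne_zero h3.ne'
    exact Finset.sum_pos' (fun i _ => Real.sqrt_nonneg _)
      ⟨i, hi, Real.sqrt_pos.mpr (lt_of_le_of_ne (hy i hi) (Ne.symm hyi))⟩
  have h3 : Real.log (avg s fun i => Real.sqrt (y i)) ≤ - egy s y := by
    refine (Real.log_le_sub_one_of_pos hpos).trans (le_of_eq ?_)
    unfold egy; ring
  calc _ ≤ _ := h
    _ ≤ ent s n + (∑ i ∈ s, n i) * (- egy s y) := by gcongr
    _ = _ := by ring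

private lemma energy_pt {y : ℝ} (hy : 0 ≤ y) :
    min ((y - 1) ^ 2) |y - 1| ≤ 6 * (Real.sqrt y - 1) ^ 2 := by
  set t := Real.sqrt y with ht
  have ht0 : 0 ≤ t := Real.sqrt_nonneg _
  have hty : y = t ^ 2 := (Real.sq_sqrt hy).symm
  rw [hty]
  have hfac : t ^ 2 - 1 = (t - 1) * (t + 1) := by ring
  rcases le_or_gt (t + 1) (12 / 5) with h | h
  · refine (min_le_left _ _).trans ?_
    rw [hfac, mul_pow]
    have : (t + 1) ^ 2 ≤ 6 := by nlinarith
    nlinarith [sq_nonneg (t - 1)]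
  · refine (min_le_right _ _).trans ?_
    rw [hfac, abs_mul, abs_of_pos (show 0 < t - 1 by linarith), abs_of_pos (by linarith : 0 < t + 1)]
    nlinarith

/-- The energy controls `min (z^2) |z|`, `z = y - 1`. -/
theorem avg_min_le {ι : Type*} (s : Finset ι) (hs : s.Nonempty) (y : ι → ℝ)
    (hy : ∀ i ∈ s, 0 ≤ y i) (h1 : avg s y = 1) :
    avg s (fun i => min ((y i - 1) ^ 2) |y i - 1|) ≤ 12 * egy s y := by
  have h2 := avg_sq s hs y hy h1
  have h3 : avg s (fun i => min ((y i - 1) ^ 2) |y i - 1|)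
      ≤ avg s (fun i => 6 * (Real.sqrt (y i) - 1) ^ 2) :=
    energy_avg_mono fun i hi => energy_pt (hy i hi)
  have h4 : avg s (fun i => 6 * (Real.sqrt (y i) - 1) ^ 2)
      = 6 * avg s (fun i => (Real.sqrt (y i) - 1) ^ 2) := by
    unfold avg
    rw [← Finset.mul_sum]; ring
  rw [h4, h2] at h3
  linarith

/-- The energy controls the mean absolute deviation. -/
theorem avg_abs_le {ι : Type*} (s : Finset ι) (hs : s.Nonempty) (y : ι → ℝ)
    (hy : ∀ i ∈ s, 0 ≤ y i) (h1 : avg s y = 1) {lam : ℝ} (hl0 : 0 < lam) (hl1 : lam ≤ 1) :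
    avg s (fun i => |y i - 1|) ≤ lam + 12 / lam * egy s y := by
  have h2 := avg_min_le s hs y hy h1
  have hc : (0 : ℝ) < (s.card : ℝ) := by exact_mod_cast hs.card_pos
  have h3 : avg s (fun i => |y i - 1|)
      ≤ avg s (fun i => lam + 1 / lam * min ((y i - 1) ^ 2) |y i - 1|) := by
    apply energy_avg_mono
    intro i _
    set z := |y i - 1| with hz
    have hz0 : 0 ≤ z := abs_nonneg _
    have hzsq : (y i - 1) ^ 2 = z ^ 2 := (sq_abs _).symm
    rw [hzsq]
    rcases le_total (z ^ 2) z with h | h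
    · rw [min_eq_left h]
      have : 0 ≤ (z - lam) ^ 2 := sq_nonneg _
      rw [← sub_nonneg]
      have e : lam + 1 / lam * z ^ 2 - z = ((z - lam) ^ 2 + z * lam) / lam := by
        field_simp; ring
      rw [e]; positivity
    · rw [min_eq_right h]
      have : z ≤ 1 / lam * z := by
        rw [one_div, inv_mul_eq_div, le_div_iff₀ hl0]
        nlinarith
      linarith
  have h4 : avg s (fun i => lam + 1 / lam * min ((y i - 1) ^ 2) |y i - 1|)
      = lam + 1 / lam * avg s (fun i => min ((y i - 1) ^ 2) |y i - 1|) := by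
    unfold avg
    rw [Finset.sum_add_distrib, ← Finset.mul_sum, Finset.sum_const, nsmul_eq_mul]
    field_simp
  rw [h4] at h3
  refine h3.trans ?_
  have h5 : 1 / lam * avg s (fun i => min ((y i - 1) ^ 2) |y i - 1|)
      ≤ 1 / lam * (12 * egy s y) := mul_le_mul_of_nonneg_left h2 (by positivity)
  calc _ ≤ lam + 1 / lam * (12 * egy s y) := by linarith
    _ = _ := by ring

lemma dd_nonneg (x : ℝ) : 0 ≤ dd x := le_min (sq_nonneg _) (by norm_num)

lemma dd_one : dd 1 = 0 := by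
  unfold dd; simp

lemma dd_le (x : ℝ) : dd x ≤ 1 / 50 := min_le_right _ _

/-- Outside `[4/5, 5/4]` the function `dd` is at least `1/100`. -/
theorem dd_ge {x : ℝ} (hx : 0 ≤ x) (h : x < 4 / 5 ∨ 5 / 4 < x) : 1 / 100 ≤ dd x := by
  refine le_min ?_ (by norm_num)
  set t := Real.sqrt x with ht
  have ht0 : 0 ≤ t := Real.sqrt_nonneg _
  have hty : x = t ^ 2 := (Real.sq_sqrt hx).symm
  rcases h with h | h
  · have : t ≤ 9 / 10 := by
      by_contra hcon
      push Not at hcon
      nlinarith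
    nlinarith
  · have : 11 / 10 ≤ t := by
      by_contra hcon
      push Not at hcon
      nlinarith
    nlinarith

private lemma energy_min_sq (a : ℝ) {c : ℝ} (hc : 0 ≤ c) : min (a ^ 2) (c ^ 2) = (min |a| c) ^ 2 := by
  rcases le_total |a| c with h | h
  · rw [min_eq_left h, sq_abs]
    apply min_eq_left
    rw [← sq_abs]
    exact pow_le_pow_left₀ (abs_nonneg _) h 2
  · rw [min_eq_right h]
    apply min_eq_right
    rw [← sq_abs a]
    exact pow_le_pow_left₀ hc h 2

private lemma energy_lip (a b : ℝ) {c : ℝ} (hc : 0 ≤ c) :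
    |min (a ^ 2) (c ^ 2) - min (b ^ 2) (c ^ 2)| ≤ 2 * c * |a - b| := by
  rw [energy_min_sq a hc, energy_min_sq b hc]
  set α := min |a| c
  set β := min |b| c
  have hα0 : 0 ≤ α := le_min (abs_nonneg _) hc
  have hβ0 : 0 ≤ β := le_min (abs_nonneg _) hc
  have hα1 : α ≤ c := min_le_right _ _
  have hβ1 : β ≤ c := min_le_right _ _
  have h1 : |α - β| ≤ |a - b| := by
    have h2 : |α - β| ≤ |(|a| - |b|)| := by
      have := abs_min_sub_min_le_max |a| c |b| c
      simpa using this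
    exact h2.trans (abs_abs_sub_abs_le a b)
  have h2 : α ^ 2 - β ^ 2 = (α - β) * (α + β) := by ring
  rw [h2, abs_mul, abs_of_nonneg (show 0 ≤ α + β by linarith)]
  calc |α - β| * (α + β) ≤ |a - b| * (2 * c) :=
        mul_le_mul h1 (by linarith) (by linarith) (abs_nonneg _)
    _ = 2 * c * |a - b| := by ring

/-- Step inequality for the labels. -/
theorem step_label {ι : Type*} (s : Finset ι) (hs : s.Nonempty) (n y : ι → ℝ)
    (hn : ∀ i ∈ s, 0 ≤ n i) (hy : ∀ i ∈ s, 0 ≤ y i) (h1 : avg s y = 1)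
    {x : ℝ} (hx0 : 4 / 5 ≤ x) (hx1 : x ≤ 5 / 4) :
    ∑ i ∈ s, n i * dd (x * y i) ≤ (∑ i ∈ s, n i) * dd x + ent s n
      + 5 * (∑ i ∈ s, n i) * egy s y := by
  have hc : (0 : ℝ) < (s.card : ℝ) := by exact_mod_cast hs.card_pos
  have hxpos : 0 ≤ x := by linarith
  set t := Real.sqrt x with ht
  have ht0 : 0 ≤ t := Real.sqrt_nonneg _
  have htx : t ^ 2 = x := Real.sq_sqrt hxpos
  have ht1 : t ≤ 23 / 20 := by
    by_contra hcon
    push Not at hcon
    nlinarith
  have ht2 : 22 / 25 ≤ t := by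
    by_contra hcon
    push Not at hcon
    nlinarith
  set N := ∑ i ∈ s, n i with hN
  have hN0 : 0 ≤ N := Finset.sum_nonneg hn
  have hddx : dd x = (t - 1) ^ 2 := by
    unfold dd
    rw [← ht]
    apply min_eq_left
    have e5 : x ≤ 5 / 4 := hx1
    rcases le_total t 1 with h | h
    · nlinarith
    · have : t ≤ 559 / 500 + 1 / 1000 := by
        by_contra hcon
        push Not at hcon
        nlinarith
      nlinarith
  have hc50 : (1 / 50 : ℝ) = (Real.sqrt (1 / 50)) ^ 2 := (Real.sq_sqrt (by norm_num)).symm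
  set c := Real.sqrt (1 / 50) with hcdef
  have hc0 : 0 ≤ c := Real.sqrt_nonneg _
  have hc1 : c ≤ 1 / 7 := by
    by_contra hcon
    push Not at hcon
    nlinarith
  have hv1 : ∀ i ∈ s, |dd (x * y i) - dd x| ≤ |Real.sqrt (y i) - 1| := by
    intro i hi
    have h2 := energy_lip (Real.sqrt (x * y i) - 1) (Real.sqrt x - 1) hc0
    have h3 : dd (x * y i) - dd x = min ((Real.sqrt (x * y i) - 1) ^ 2) (c ^ 2)
        - min ((Real.sqrt x - 1) ^ 2) (c ^ 2) := by
      unfold dd; rw [← hc50]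
    rw [h3]
    refine h2.trans ?_
    have h4 : Real.sqrt (x * y i) - 1 - (Real.sqrt x - 1) = t * (Real.sqrt (y i) - 1) := by
      rw [Real.sqrt_mul hxpos]; ring
    rw [h4, abs_mul, abs_of_nonneg ht0]
    have h5 : 2 * c * t ≤ 1 := by nlinarith
    calc 2 * c * (t * |Real.sqrt (y i) - 1|) = (2 * c * t) * |Real.sqrt (y i) - 1| := by ring
      _ ≤ 1 * |Real.sqrt (y i) - 1| := mul_le_mul_of_nonneg_right h5 (abs_nonneg _)
      _ = _ := one_mul _
  have hv2 : ∀ i ∈ s, |dd (x * y i) - dd x| ≤ 1 := by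
    intro i _
    have h2 := dd_nonneg (x * y i)
    have h3 := dd_nonneg x
    have h4 := dd_le (x * y i)
    have h5 := dd_le x
    rw [abs_le]; constructor <;> linarith
  have hv3 : ∀ i ∈ s, dd (x * y i) - dd x ≤ x * (y i - 1) - 2 * t * (Real.sqrt (y i) - 1) := by
    intro i hi
    have h2 : dd (x * y i) ≤ (Real.sqrt (x * y i) - 1) ^ 2 := min_le_left _ _
    rw [Real.sqrt_mul hxpos, ← ht] at h2
    have h3 := Real.sq_sqrt (hy i hi)
    rw [hddx]
    nlinarith
  have hexp : ∀ i ∈ s, Real.exp (dd (x * y i) - dd x)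
      ≤ 1 + (x * (y i - 1) - 2 * t * (Real.sqrt (y i) - 1)) + (Real.sqrt (y i) - 1) ^ 2 := by
    intro i hi
    have h := Real.abs_exp_sub_one_sub_id_le (hv2 i hi)
    have h' := (abs_le.mp h).2
    have h2 : (dd (x * y i) - dd x) ^ 2 ≤ (Real.sqrt (y i) - 1) ^ 2 := by
      rw [← sq_abs, ← sq_abs (Real.sqrt (y i) - 1)]
      exact pow_le_pow_left₀ (abs_nonneg _) (hv1 i hi) 2
    have h3 := hv3 i hi
    linarith
  have hg := gibbs s hs n (fun i => dd (x * y i) - dd x) hn
  have hpos : 0 < avg s fun i => Real.exp (dd (x * y i) - dd x) := by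
    unfold avg
    exact div_pos (Finset.sum_pos (fun i _ => Real.exp_pos _) hs) hc
  have hlog : Real.log (avg s fun i => Real.exp (dd (x * y i) - dd x)) ≤ 5 * egy s y := by
    refine (Real.log_le_sub_one_of_pos hpos).trans ?_
    have h2 := energy_avg_mono hexp
    have h3 : avg s (fun i => 1 + (x * (y i - 1) - 2 * t * (Real.sqrt (y i) - 1))
        + (Real.sqrt (y i) - 1) ^ 2)
        = 1 + (x * (avg s y - 1) - 2 * t * (avg s (fun i => Real.sqrt (y i)) - 1))
          + avg s (fun i => (Real.sqrt (y i) - 1) ^ 2) := by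
      have e1 : ∑ i ∈ s, (1 + (x * (y i - 1) - 2 * t * (Real.sqrt (y i) - 1))
          + (Real.sqrt (y i) - 1) ^ 2)
          = (s.card : ℝ) + (x * (∑ i ∈ s, y i - (s.card : ℝ))
            - 2 * t * (∑ i ∈ s, Real.sqrt (y i) - (s.card : ℝ)))
            + ∑ i ∈ s, (Real.sqrt (y i) - 1) ^ 2 := by
        have hcard : (s.card : ℝ) = ∑ i ∈ s, (1 : ℝ) := by simp
        rw [hcard, ← Finset.sum_sub_distrib, ← Finset.sum_sub_distrib, Finset.mul_sum,
          Finset.mul_sum, ← Finset.sum_sub_distrib, ← Finset.sum_add_distrib,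
          ← Finset.sum_add_distrib]
      unfold avg
      rw [e1]
      generalize ∑ i ∈ s, y i = a
      generalize ∑ i ∈ s, Real.sqrt (y i) = b
      generalize ∑ i ∈ s, (Real.sqrt (y i) - 1) ^ 2 = d
      generalize (s.card : ℝ) = m at hc
      field_simp
    rw [h3, avg_sq s hs y hy h1, h1] at h2
    have h4 : avg s (fun i => Real.sqrt (y i)) - 1 = - egy s y := by unfold egy; ring
    rw [h4] at h2
    have h5 := egy_nonneg s hs y hy h1
    have h6 : 2 * t * egy s y ≤ 3 * egy s y := by nlinarith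
    linarith
  have h2 : ∑ i ∈ s, n i * (dd (x * y i) - dd x) = ∑ i ∈ s, n i * dd (x * y i) - N * dd x := by
    rw [hN, Finset.sum_mul, ← Finset.sum_sub_distrib]
    exact Finset.sum_congr rfl fun i _ => by ring
  rw [h2] at hg
  have h3 : N * Real.log (avg s fun i => Real.exp (dd (x * y i) - dd x)) ≤ N * (5 * egy s y) :=
    mul_le_mul_of_nonneg_left hlog hN0
  linarith

end Pool.Agent.Lib.HAP.E
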